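import Pool.Agent.H71.CR.Stmt

/-!
# The atoms when some of them are replaced (row FNC of the board `cwr_modules`)
-/

set_option autoImplicit false

open Set Pool.Agent.TK Pool.Agent.H71.VK

namespace Pool.Agent.CR

namespace H21FNC

/-! ### Positions -/

/-- local version of the transfer of positions along a map -/
private lemma pl_loc {c c' : Lf} {f : ℕ → ℕ} {l : List ℕ}
    (H : ∀ m : List ℕ, (∀ x ∈ m, x ∈ l) → c (m.map f) = c' m) {p : List (ℕ × ℕ)}
    (hp : ∀ z ∈ p, z.1 ∈ l ∧ z.2 ∈ l) : Pl c c (p.map (Prod.map f f)) ↔ Pl c' c' p := by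
  have e1 : ∀ q : List (ℕ × ℕ), (q.map (Prod.map f f)).map Prod.fst = (q.map Prod.fst).map f := by
    intro q
    rw [List.map_map, List.map_map]
    rfl
  have e2 : ∀ q : List (ℕ × ℕ), (q.map (Prod.map f f)).map Prod.snd = (q.map Prod.snd).map f := by
    intro q
    rw [List.map_map, List.map_map]
    rfl
  have m1 : ∀ q : List (ℕ × ℕ), (∀ z ∈ q, z ∈ p) → ∀ x ∈ q.map Prod.fst, x ∈ l := by
    intro q hq x hx
    obtain ⟨w, hw, rfl⟩ := List.mem_map.1 hx
    exact (hp w (hq w hw)).1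
  have m2 : ∀ q : List (ℕ × ℕ), (∀ z ∈ q, z ∈ p) → ∀ x ∈ q.map Prod.snd, x ∈ l := by
    intro q hq x hx
    obtain ⟨w, hw, rfl⟩ := List.mem_map.1 hx
    exact (hp w (hq w hw)).2
  constructor
  · intro h1 q hq
    have h2 := h1 (q.map (Prod.map f f)) fun z hz => by
      obtain ⟨w, hw, rfl⟩ := List.mem_map.1 hz
      exact List.mem_map_of_mem (hq w hw)
    rw [e1, e2, H _ (m1 q hq), H _ (m2 q hq)] at h2
    exact h2
  · intro h1 q hq
    have hch : ∀ z ∈ q, ∃ w ∈ p, Prod.map f f w = z := fun z hz => List.mem_map.1 (hq z hz)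
    obtain ⟨q', hq', rfl⟩ : ∃ q' : List (ℕ × ℕ), (∀ w ∈ q', w ∈ p) ∧
        q'.map (Prod.map f f) = q := by
      clear hq
      induction q with
      | nil => exact ⟨[], by simp, rfl⟩
      | cons z q ih =>
        obtain ⟨q', h2, h3⟩ := ih fun z hz => hch z (List.mem_cons_of_mem _ hz)
        obtain ⟨w, hw, rfl⟩ := hch z List.mem_cons_self
        refine ⟨w :: q', ?_, by rw [List.map_cons, h3]⟩
        intro v hv
        rcases List.mem_cons.1 hv with rfl | hv
        · exact hw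
        · exact h2 v hv
    rw [e1, e2, H _ (m1 q' hq'), H _ (m2 q' hq')]
    exact h1 q' hq'

section Ans

variable {C ι : Type} {c0 : C} {n : Bd} {b : Rk} {M : St (C × ℕ)} {B : ι → Set ℕ}
  {z : ι → List ℕ} {R : ι → St (C × ℕ)} {T : Set ι}

private lemma ps_pl (hPSE : T_PSE C) (hRPL : T_RPL C) (hRA : RA c0 n b M B z R)
    {p : List (ℕ × ℕ)} (hp : Ps M B z R T Rk.zero p) :
    Pl (bn (rp M B z R T)) (bn M) p := by
  intro q hq
  have h1 := (hPSE ι c0 n b M B z R hRA T).2.2.1 Rk.zero p q hq hp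
  exact congrArg Prod.snd (hRPL ι c0 n b M B z R hRA T q h1)

private lemma ps_blk (hRA : RA c0 n b M B z R) {r : Rk} {p : List (ℕ × ℕ)}
    (hp : Ps M B z R T r p) {q : ℕ × ℕ} (hq : q ∈ p) (j : ι) : q.1 ∈ B j ↔ q.2 ∈ B j := by
  by_cases h : ∃ i ∈ T, q.1 ∈ B i
  · obtain ⟨i, hi, hqi⟩ := h
    have h2 := (hp.2.1 q hq i hi).1 hqi
    by_cases hij : i = j
    · subst hij
      exact ⟨fun _ => h2, fun _ => hqi⟩
    · have hd := hRA.disj i j hij
      exact ⟨fun h3 => absurd h3 (Set.disjoint_left.1 hd hqi),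
        fun h3 => absurd h3 (Set.disjoint_left.1 hd h2)⟩
  · have h3 := hp.1 q hq fun i hi h3 => h ⟨i, hi, h3⟩
    rw [h3]

private lemma ps_inj (hRA : RA c0 n b M B z R) {r : Rk} {p : List (ℕ × ℕ)}
    (hp : Ps M B z R T r p) {q w : ℕ × ℕ} (hq : q ∈ p) (hw : w ∈ p) :
    q.1 = w.1 ↔ q.2 = w.2 := by
  classical
  have key : ∀ {q w : ℕ × ℕ}, q ∈ p → w ∈ p → (∃ i ∈ T, q.1 ∈ B i) → (q.1 = w.1 ↔ q.2 = w.2) := by
    intro q w hq hw h
    obtain ⟨i, hi, hqi⟩ := h
    by_cases hwi : w.1 ∈ B i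
    · exact (bf_PI (hp.2.2 i hi)).1 q
        (List.mem_append_right _ (List.mem_filter.2 ⟨hq, decide_eq_true hqi⟩)) w
        (List.mem_append_right _ (List.mem_filter.2 ⟨hw, decide_eq_true hwi⟩))
    · constructor
      · intro h1
        exact absurd (h1 ▸ hqi) hwi
      · intro h1
        have h2 := (ps_blk hRA hp hq i).1 hqi
        rw [h1] at h2
        exact absurd ((ps_blk hRA hp hw i).2 h2) hwi
  by_cases h : ∃ i ∈ T, q.1 ∈ B i
  · exact key hq hw h
  by_cases h' : ∃ i ∈ T, w.1 ∈ B i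
  · have := key hw hq h'
    exact ⟨fun h1 => (this.1 h1.symm).symm, fun h1 => (this.2 h1.symm).symm⟩
  rw [hp.1 q hq fun i hi h3 => h ⟨i, hi, h3⟩, hp.1 w hw fun i hi h3 => h' ⟨i, hi, h3⟩]

/-- a function with given values -/
private lemma ps_fun (hRA : RA c0 n b M B z R) {r : Rk} {p : List (ℕ × ℕ)}
    (hp : Ps M B z R T r p) : ∃ f : ℕ → ℕ, ∀ q ∈ p, f q.1 = q.2 := by
  classical
  refine ⟨fun x => if h : ∃ y, (x, y) ∈ p then h.choose else 0, fun q hq => ?_⟩
  have h : ∃ y, (q.1, y) ∈ p := ⟨q.2, hq⟩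
  show (if h : ∃ y, (q.1, y) ∈ p then h.choose else 0) = q.2
  rw [dif_pos h]
  exact (ps_inj hRA hp h.choose_spec hq).1 rfl

/-- answers -/
private lemma answers (hPSE : T_PSE C) (hRPX : T_RPX C) (hRPL : T_RPL C)
    (hRA : RA c0 n b M B z R) (T : Set ι) (l : List ℕ) : ∃ f : ℕ → ℕ,
    (∀ x ∈ l, (∀ j, x ∉ B j) → f x = x) ∧ (∀ x ∈ l, ∀ j, (x ∈ B j ↔ f x ∈ B j)) ∧
    ∀ m : List ℕ, (∀ x ∈ m, x ∈ l) → bn M (m.map f) = bn (rp M B z R T) m := by
  obtain ⟨q, hq, hp⟩ := hRPX ι c0 n b M B z R hRA T l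
  obtain ⟨f, hf⟩ := ps_fun hRA hp
  have hmem : ∀ x ∈ l, (x, f x) ∈ q := by
    intro x hx
    rw [← hq] at hx
    obtain ⟨w, hw, rfl⟩ := List.mem_map.1 hx
    rw [hf w hw]
    exact hw
  refine ⟨f, fun x hx hj => ?_, fun x hx j => ps_blk hRA hp (hmem x hx) j, fun m hm => ?_⟩
  · exact (hp.1 _ (hmem x hx) fun i _ => hj i).symm
  · have h1 := ps_pl hPSE hRPL hRA hp (m.map fun x => (x, f x)) (by
      intro w hw
      obtain ⟨x, hx, rfl⟩ := List.mem_map.1 hw
      exact hmem x (hm x hx))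
    rw [List.map_map, List.map_map] at h1
    have e1 : (Prod.fst ∘ fun x => (x, f x)) = (id : ℕ → ℕ) := rfl
    have e2 : (Prod.snd ∘ fun x => (x, f x)) = f := rfl
    rw [e1, e2, List.map_id] at h1
    exact h1.symm

end Ans

/-! ### The closures -/

/-- the closure in the atom itself -/
private lemma rel_cl {c : Lf} {P : Set ℕ} {L : List ℕ} {F : Ed} {D : Set ℕ}
    (hD : Cc c L F (Ur P L) D)
    (hctl : ∀ p : List (ℕ × ℕ), (∀ q ∈ p, q.1 ∈ D ∧ q.2 ∈ D) → Pl c c (dg L ++ p) →
      ∀ E : List ℕ, (∀ y ∈ E, y ∉ D) → Pl c c (dg E ++ (dg L ++ p)))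
    (hat : ∀ u ∈ D, D ⊆ cl c P L F ([u], [])) {u w : ℕ} (hu : u ∈ D) (hw : w ∈ D) :
    w ∈ cl c D L F ([u], []) := by
  classical
  have hUr : ∀ y ∈ D, y ∈ Ur D L := fun y hy => ⟨hy, (hD.sub hy).2⟩
  refine ⟨hUr w hw, fun Z hZ huZ => ?_⟩
  have hZD : Z ⊆ D := fun y hy => (hZ.sub hy).1
  refine (hat u hu hw).2 Z ⟨hZD.trans hD.sub, ?_, ?_⟩ huZ
  · intro p hp hpl E hE
    obtain ⟨E1, hE1⟩ : ∃ E1, E1 = E.filter fun y => decide (y ∈ D) := ⟨_, rfl⟩
    have h1 := hZ.ctl p hp hpl E1 (by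
      intro y hy
      rw [hE1] at hy
      obtain ⟨h2, h3⟩ := List.mem_filter.1 hy
      exact ⟨hUr y (of_decide_eq_true h3), (hE y h2).2⟩)
    have h2 := hctl (dg E1 ++ p) (by
      intro q hq
      rcases List.mem_append.1 hq with h3 | h3
      · have h4 := mem_dg.1 h3
        have h5 : q.1 ∈ D := by
          have h6 := h4.2
          rw [hE1] at h6
          exact of_decide_eq_true (List.mem_filter.1 h6).2
        exact ⟨h5, h4.1 ▸ h5⟩
      · exact ⟨hZD (hp q h3).1, hZD (hp q h3).2⟩) (h1.mono (by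
      intro q hq
      simp only [List.mem_append] at hq ⊢
      tauto)) (E.filter fun y => decide (y ∉ D)) (by
      intro y hy
      exact of_decide_eq_true (List.mem_filter.1 hy).2)
    refine h2.mono ?_
    intro q hq
    simp only [List.mem_append, mem_dg] at hq ⊢
    rcases hq with hq | hq | hq
    · by_cases h3 : q.1 ∈ D
      · refine Or.inr (Or.inr (Or.inl ⟨hq.1, ?_⟩))
        rw [hE1]
        exact List.mem_filter.2 ⟨hq.2, decide_eq_true h3⟩
      · exact Or.inl ⟨hq.1, List.mem_filter.2 ⟨hq.2, decide_eq_true h3⟩⟩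
    · exact Or.inr (Or.inl hq)
    · exact Or.inr (Or.inr (Or.inr hq))
  · intro e he d hd hdU hpl hex
    obtain ⟨y, hy, hyZ⟩ := hex
    have h1 := hD.edg e he d hd hdU hpl ⟨y, hy, hZD hyZ⟩
    exact hZ.edg e he d hd (fun x hx => hUr x (h1 x hx)) hpl ⟨y, hy, hyZ⟩

section Main

variable {C : Type} {c0 : C} {n : Bd} {b : Rk} {M : St (C × ℕ)} {B : ℕ → Set ℕ}
  {L : List ℕ} {R : ℕ → St (C × ℕ)} {F : Ed} {P : Set ℕ}

/-- (A) the atoms are controlled in the new structure -/
private lemma atom_cc (hPSE : T_PSE C) (hRPX : T_RPX C) (hRPL : T_RPL C)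
    (hRA : RA c0 n b M B (fun _ => L) R) (T : Set ℕ)
    (hD : ∀ i, Cc (bn M) L F (Ur P L) (B i)) (hF : ∀ i, ∀ e ∈ F, ∀ a ∈ e, a ∉ B i) (i : ℕ) :
    Cc (bn (rp M B (fun _ => L) R T)) L F (Ur P L) (B i) := by
  refine ⟨(hD i).sub, ?_, ?_⟩
  · intro p hp hpl E hE
    obtain ⟨f, hf1, hf2, hf3⟩ := answers hPSE hRPX hRPL hRA T
      (E ++ (L ++ (p.map Prod.fst ++ p.map Prod.snd)))
    have hL : L.map f = L := map_fix fun a ha => hf1 a (by simp [ha]) fun j =>
      hRA.avo i j a ha
    have hpp : ∀ q ∈ p, q.1 ∈ E ++ (L ++ (p.map Prod.fst ++ p.map Prod.snd)) ∧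
        q.2 ∈ E ++ (L ++ (p.map Prod.fst ++ p.map Prod.snd)) := by
      intro q hq
      simp only [List.mem_append]
      exact ⟨Or.inr (Or.inr (Or.inl (List.mem_map_of_mem hq))),
        Or.inr (Or.inr (Or.inr (List.mem_map_of_mem hq)))⟩
    have hLL : ∀ q ∈ dg L, q.1 ∈ E ++ (L ++ (p.map Prod.fst ++ p.map Prod.snd)) ∧
        q.2 ∈ E ++ (L ++ (p.map Prod.fst ++ p.map Prod.snd)) := by
      intro q hq
      have h := mem_dg.1 hq
      rw [← h.1]
      simp only [List.mem_append]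
      exact ⟨Or.inr (Or.inl h.2), Or.inr (Or.inl h.2)⟩
    have h1 := (pl_loc hf3 (p := dg L ++ p) (by
      intro q hq
      rcases List.mem_append.1 hq with h | h
      · exact hLL q h
      · exact hpp q h)).2 hpl
    rw [List.map_append, ← dg_map, hL] at h1
    have h2 := hRA.ctl i (p.map (Prod.map f f)) (by
      intro q hq
      obtain ⟨w, hw, rfl⟩ := List.mem_map.1 hq
      exact ⟨(hf2 _ (hpp w hw).1 i).1 (hp w hw).1, (hf2 _ (hpp w hw).2 i).1 (hp w hw).2⟩) h1
      (E.map f) (by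
      intro y hy h
      obtain ⟨w, hw, rfl⟩ := List.mem_map.1 hy
      exact (hE w hw).2 ((hf2 w (List.mem_append_left _ hw) i).2 h))
    refine (pl_loc hf3 (p := dg E ++ (dg L ++ p)) ?_).1 ?_
    · intro q hq
      rcases List.mem_append.1 hq with h | h
      · have h' := mem_dg.1 h
        rw [← h'.1]
        exact ⟨List.mem_append_left _ h'.2, List.mem_append_left _ h'.2⟩
      · rcases List.mem_append.1 h with h | h
        · exact hLL q h
        · exact hpp q h
    · rw [List.map_append, List.map_append, ← dg_map, ← dg_map, hL]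
      exact h2
  · intro e he d hd hdU hpl hex x hx
    obtain ⟨f, hf1, hf2, hf3⟩ := answers hPSE hRPX hRPL hRA T (L ++ (d ++ e))
    have hL : L.map f = L := map_fix fun a ha => hf1 a (by simp [ha]) fun j =>
      hRA.avo i j a ha
    have hee : e.map f = e := map_fix fun a ha => hf1 a (by simp [ha]) fun j =>
      hF j e he a ha
    have hdm : ∀ y ∈ d, y ∈ L ++ (d ++ e) := fun y hy => by simp [hy]
    have h1 := (pl_loc hf3 (p := dg L ++ d.zip e) (by
      intro q hq
      rcases List.mem_append.1 hq with h | h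
      · have h' := mem_dg.1 h
        rw [← h'.1]
        exact ⟨List.mem_append_left _ h'.2, List.mem_append_left _ h'.2⟩
      · have h' := List.of_mem_zip (a := q.1) (b := q.2) h
        simp only [List.mem_append]
        exact ⟨Or.inr (Or.inl h'.1), Or.inr (Or.inr h'.2)⟩)).2 hpl
    rw [List.map_append, ← dg_map, hL, ← zip_map2, hee] at h1
    have h2 := (hD i).edg e he (d.map f) (by rw [List.length_map, hd]) (by
      intro y hy
      obtain ⟨w, hw, rfl⟩ := List.mem_map.1 hy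
      by_cases h : ∃ j, w ∈ B j
      · obtain ⟨j, hj⟩ := h
        exact (hD j).sub ((hf2 w (hdm w hw) j).1 hj)
      · push Not at h
        rw [hf1 w (hdm w hw) h]
        exact hdU w hw) h1 (by
      obtain ⟨y, hy, hyB⟩ := hex
      exact ⟨f y, List.mem_map_of_mem hy, (hf2 y (hdm y hy) i).1 hyB⟩)
    exact (hf2 x (hdm x hx) i).2 (h2 (f x) (List.mem_map_of_mem hx))

/-- answers in an atom -/
private lemma ans_atom (hPSE : T_PSE C) (hRA : RA c0 n b M B (fun _ => L) R) (T : Set ℕ) (i : ℕ)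
    {x w' : ℕ} (hx : x ∈ B i) (hw' : w' ∈ B i) {K : List ℕ} (hK : ∀ a ∈ K, ∀ j, a ∉ B j) :
    ∃ u ∈ B i, ∃ w ∈ B i, ∀ W : List ℕ, (∀ a ∈ W, a ∈ B i) → ∃ W' : List ℕ,
      W'.length = W.length ∧ (∀ a ∈ W', a ∈ B i) ∧
      Ps M B (fun _ => L) R T Rk.zero (W'.zip W ++ ([(x, u), (w', w)] ++ dg K)) := by
  classical
  have hz : ∀ r : Rk, RLe (C × ℕ) Rk.zero r := fun r _ _ _ _ _ h => bf_PI h
  have hfb : ∀ j, bf (R j) M (B j) (B j) (Rk.lim (Rk.lim Rk.zero)) (dg L) := by
    intro j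
    have h1 := (hRA.fb j).2
    rw [← dg_eq_zip] at h1
    have h2 := bf_symm h1
    have h3 : (dg L).map Prod.swap = dg L := by
      unfold dg
      rw [List.map_map]
      rfl
    rw [h3] at h2
    exact (RLe.lim_mono (RLe.lim_mono (hz _))).trans hRA.base _ _ _ _ _ h2
  by_cases hi : i ∈ T
  · obtain ⟨y, hy1, hy2, hy3⟩ := lim_ext (hfb i) [x, w'] (by
      intro a ha
      simp only [List.mem_cons, List.not_mem_nil, or_false] at ha
      rcases ha with rfl | rfl
      · exact hx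
      · exact hw')
    obtain ⟨u, w, rfl⟩ : ∃ u w, y = [u, w] := by
      match y, hy1 with
      | [u, w], _ => exact ⟨u, w, rfl⟩
    have hu : u ∈ B i := hy2 u (by simp)
    have hw : w ∈ B i := hy2 w (by simp)
    refine ⟨u, hu, w, hw, fun W hW => ?_⟩
    obtain ⟨W', hW1, hW2, hW3⟩ := lim_ext' hy3 W hW
    have hPI : PI (R i) M (W'.zip W ++ ([(x, u), (w', w)] ++ dg L)) := bf_PI hW3
    refine ⟨W', hW1, hW2, ?_⟩
    have hcase : ∀ q ∈ W'.zip W ++ ([(x, u), (w', w)] ++ dg K),
        (q.1 ∈ B i ∧ q.2 ∈ B i ∧ q ∈ W'.zip W ++ ([(x, u), (w', w)] ++ dg L)) ∨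
          (q.1 = q.2 ∧ ∀ j, q.1 ∉ B j) := by
      intro q hq
      rcases List.mem_append.1 hq with h | h
      · left
        obtain ⟨k, h1, h2, rfl⟩ := zip_get h
        exact ⟨hW2 _ (List.getElem_mem h1), hW _ (List.getElem_mem h2),
          List.mem_append_left _ h⟩
      · rcases List.mem_append.1 h with h | h
        · left
          refine ⟨?_, ?_, List.mem_append_right _ (List.mem_append_left _ h)⟩
          · simp only [List.mem_cons, List.not_mem_nil, or_false] at h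
            rcases h with rfl | rfl
            · exact hx
            · exact hw'
          · simp only [List.mem_cons, List.not_mem_nil, or_false] at h
            rcases h with rfl | rfl
            · exact hu
            · exact hw
        · right
          have h' := mem_dg.1 h
          exact ⟨h'.1, hK _ h'.2⟩
    have hdis : ∀ j, j ≠ i → ∀ a ∈ B i, a ∉ B j := fun j hj a ha hb =>
      Set.disjoint_left.1 (hRA.disj i j (Ne.symm hj)) ha hb
    refine ⟨?_, ?_, ?_⟩
    · intro q hq h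
      rcases hcase q hq with h1 | h1
      · exact absurd h1.1 (h i hi)
      · exact h1.1
    · intro q hq j _
      rcases hcase q hq with h1 | h1
      · by_cases hj : j = i
        · subst hj
          exact ⟨fun _ => h1.2.1, fun _ => h1.1⟩
        · exact ⟨fun h2 => absurd h2 (hdis j hj _ h1.1), fun h2 => absurd h2 (hdis j hj _ h1.2.1)⟩
      · rw [h1.1]
    · intro j _
      show PI (R j) M _
      by_cases hj : j = i
      · subst hj
        refine hPI.mono ?_
        intro q hq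
        rcases List.mem_append.1 hq with h | h
        · exact List.mem_append_right _ (List.mem_append_right _ h)
        · obtain ⟨h1, h2⟩ := List.mem_filter.1 h
          rcases hcase q h1 with h3 | h3
          · exact h3.2.2
          · exact absurd (of_decide_eq_true h2) (h3.2 j)
      · refine (bf_PI (hfb j)).mono ?_
        intro q hq
        rcases List.mem_append.1 hq with h | h
        · exact h
        · obtain ⟨h1, h2⟩ := List.mem_filter.1 h
          have h4 : q.1 ∈ B j := of_decide_eq_true h2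
          rcases hcase q h1 with h3 | h3
          · exact absurd h4 (hdis j hj _ h3.1)
          · exact absurd h4 (h3.2 j)
  · refine ⟨x, hx, w', hw', fun W hW => ⟨W, rfl, hW, ?_⟩⟩
    obtain ⟨h1, h2, h3, -, -⟩ := hPSE ℕ c0 n b M B (fun _ => L) R hRA T
    have hdis : ∀ j ∈ T, ∀ a ∈ B i, a ∉ B j := fun j hj a ha hb =>
      Set.disjoint_left.1 (hRA.disj i j (fun h => hi (h ▸ hj))) ha hb
    have h4 := h1 (W ++ ([x, w'] ++ K)) (by
      intro a ha j hj
      simp only [List.mem_append, List.mem_cons, List.not_mem_nil, or_false] at ha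
      rcases ha with ha | (rfl | rfl) | ha
      · exact hdis j hj a (hW a ha)
      · exact hdis j hj a hx
      · exact hdis j hj a hw'
      · exact hK a ha j)
    refine h3 _ _ _ ?_ (h2 _ _ _ (hz b) h4)
    intro q hq
    rw [mem_dg]
    rcases List.mem_append.1 hq with h | h
    · rw [← dg_eq_zip] at h
      have h' := mem_dg.1 h
      exact ⟨h'.1, List.mem_append_left _ h'.2⟩
    · rcases List.mem_append.1 h with h | h
      · simp only [List.mem_cons, List.not_mem_nil, or_false] at h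
        rcases h with rfl | rfl
        · exact ⟨rfl, by simp⟩
        · exact ⟨rfl, by simp⟩
      · have h' := mem_dg.1 h
        exact ⟨h'.1, List.mem_append_right _ (List.mem_append_right _ h'.2)⟩

/-- (B) the points of an atom are in the closure of each other in the new structure -/
private lemma atom_sub (hPSE : T_PSE C) (hRPL : T_RPL C) (hCLF : T_CLF) (hCLT : T_CLT)
    (hRA : RA c0 n b M B (fun _ => L) R) (T : Set ℕ)
    (hD : ∀ i, Cc (bn M) L F (Ur P L) (B i)) (hF : ∀ i, ∀ e ∈ F, ∀ a ∈ e, a ∉ B i)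
    (hat : ∀ i, ∀ u ∈ B i, B i ⊆ cl (bn M) P L F ([u], [])) (i : ℕ) {x w' : ℕ} (hx : x ∈ B i)
    (hw' : w' ∈ B i) : w' ∈ cl (bn (rp M B (fun _ => L) R T)) P L F ([x], []) := by
  have hK : ∀ a ∈ L ++ F.flatten, ∀ j, a ∉ B j := by
    intro a ha j
    rcases List.mem_append.1 ha with h | h
    · exact hRA.avo i j a h
    · obtain ⟨e, he, hae⟩ := List.mem_flatten.1 h
      exact hF j e he a hae
  obtain ⟨u, hu, w, hw, hans⟩ := ans_atom hPSE hRA T i hx hw' hK
  have h1 := rel_cl (hD i) (hRA.ctl i) (hat i) hu hw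
  obtain ⟨W, hW1, hW2, hW3⟩ := (hCLF (bn M) (B i) L F ([u], []) (by
    intro a ha
    rw [List.mem_singleton] at ha
    rw [ha]
    exact ⟨hu, ((hD i).sub hu).2⟩) w).1 h1
  obtain ⟨W', hW4, hW5, hp⟩ := hans W fun a ha => (hW1 a ha).1
  obtain ⟨f, hf⟩ := ps_fun hRA hp
  have hxu : (x, u) ∈ W'.zip W ++ ([(x, u), (w', w)] ++ dg (L ++ F.flatten)) := by simp
  have hww : (w', w) ∈ W'.zip W ++ ([(x, u), (w', w)] ++ dg (L ++ F.flatten)) := by simp
  have hdg : ∀ a ∈ L ++ F.flatten,
      (a, a) ∈ W'.zip W ++ ([(x, u), (w', w)] ++ dg (L ++ F.flatten)) := fun a ha =>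
    List.mem_append_right _ (List.mem_append_right _ (mem_dg.2 ⟨rfl, ha⟩))
  have hdg' : ∀ a ∈ L ++ F.flatten, f a = a := fun a ha => hf _ (hdg a ha)
  have hWf : W'.map f = W := by
    refine List.ext_getElem (by rw [List.length_map, hW4]) fun k hk1 hk2 => ?_
    rw [List.getElem_map]
    rw [List.length_map] at hk1
    exact hf _ (List.mem_append_left _ (get_zip hk1 hk2))
  have hLf : L.map f = L := map_fix fun a ha => hdg' a (List.mem_append_left _ ha)
  have hFf : F.map (List.map f) = F := by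
    conv_rhs => rw [← List.map_id F]
    refine List.map_congr_left fun e he => ?_
    exact map_fix fun a ha => hdg' a (List.mem_append_right _ (List.mem_flatten.2 ⟨e, he, ha⟩))
  have h2 := hCLT (bn (rp M B (fun _ => L) R T)) (bn M) _ (fun q hq q' hq' =>
    ps_inj hRA hp hq hq') (ps_pl hPSE hRPL hRA hp) f W' L F ([x], []) (by
      intro a ha
      obtain ⟨k, hk, rfl⟩ := List.mem_iff_getElem.1 ha
      have h3 := get_zip (y := W) hk (by rw [← hW4]; exact hk)
      have h4 := hf _ (List.mem_append_left _ h3)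
      simp only at h4
      rw [h4]
      exact List.mem_append_left _ h3) (by
      intro a ha
      rw [hdg' a (List.mem_append_left _ ha)]
      exact hdg a (List.mem_append_left _ ha)) (by
      intro e he a ha
      have h3 : a ∈ L ++ F.flatten := List.mem_append_right _ (List.mem_flatten.2 ⟨e, he, ha⟩)
      rw [hdg' a h3]
      exact hdg a h3) (by
      intro a ha
      rw [List.mem_singleton] at ha
      rw [ha, hf _ hxu]
      exact hxu) (w', w) hww
  rw [hWf, hLf, hFf] at h2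
  have hfx : f x = u := hf _ hxu
  have h3 : w' ∈ cl (bn (rp M B (fun _ => L) R T)) (ms W') L F ([x], []) := by
    refine h2.2 ?_
    show w ∈ cl (bn M) (ms W) L F ([f x], [])
    rw [hfx]
    exact hW3
  refine (hCLF (bn (rp M B (fun _ => L) R T)) P L F ([x], []) (by
    intro a ha
    rw [List.mem_singleton] at ha
    rw [ha]
    exact (hD i).sub hx) w').2 ⟨W', fun a ha => (hD i).sub (hW5 a ha), ?_, h3⟩
  intro a ha
  rw [List.mem_singleton] at ha
  rw [ha]
  obtain ⟨k, hk, hku⟩ := List.mem_iff_getElem.1 (hW2 u (List.mem_singleton.2 rfl))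
  have hk' : k < W'.length := by rw [hW4]; exact hk
  have h4 := ps_inj hRA hp (List.mem_append_left _ (get_zip hk' hk)) hxu
  have h5 : W'[k] = x := h4.2 hku
  rw [← h5]
  exact List.getElem_mem hk'

end Main

end H21FNC

open H21FNC in
theorem pf_FNC {C : Type} (hINV : T_INV C) (hPSE : T_PSE C) (hRPX : T_RPX C) (hRPL : T_RPL C)
    (hCLF : T_CLF) (hCLT : T_CLT) : T_FNC C := by
  intro c0 n b M π S F v Q R hV hvc hRA hdl hF T
  have hV0 : Vd (bn M) π := (vd_cons.1 (hV 0)).1
  obtain ⟨i1, -, i3⟩ := hINV ℕ c0 n b M _ _ R hRA T π fun a ha i _ => hdl i a ha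
  have hbase : ∀ i, ∀ a ∈ [v i], a ∈ Ur (st (bn M) π) (S ++ zl π) :=
    fun i => (vd_cons.1 (hV i)).2.2.2.1
  have hD : ∀ i, Cc (bn M) (S ++ zl π) F (Ur (st (bn M) π) (S ++ zl π))
      (st (bn M) ((S, F, ([v i], Q i), true) :: π)) := fun i => by
    rw [st_true]
    exact cc_cl (x := ([v i], Q i)) (hbase i)
  refine ⟨i1.2 hV0, i3 fun i _ => Or.inl fun y hy => ((hD i).sub hy).1, fun i x hx => ?_⟩
  apply Subset.antisymm
  · refine cl_min (atom_cc hPSE hRPX hRPL hRA T hD hF i) ?_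
    intro a ha
    rw [List.mem_singleton] at ha
    rw [ha]
    exact hx
  · intro w' hw'
    refine atom_sub hPSE hRPL hCLF hCLT hRA T hD hF ?_ i hx hw'
    intro j u hu
    rw [st_true] at hu ⊢
    rw [vc_eq (hvc j) (Q j) [] hu]

end Pool.Agent.CR
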